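import Pool.Agent.H15.TG.Targets

/-!
# Row PPC: the primes commute (helper63)
-/

set_option autoImplicit false

namespace Pool.Agent.H63.TG

open MvPolynomial Pool.Agent.H2.ST Pool.Agent.H15.TG

theorem pf_PPC : T_PPC := by
  classical
  intro k _ _ _ m d W K H f π ψ a c0 h i j
  by_cases hij : i = j
  · subst hij
    exact br_self _
  by_contra ht
  have hi := mem_Cf.mp (h.hp i)
  have hj := mem_Cf.mp (h.hp j)
  have hcen : ∀ l, br (π l) f = 0 := fun l => by
    rw [br_anti, (mem_Cf.mp (h.hp l)).2, neg_zero]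
  have htC : br (π i) (π j) ∈ Cf K f := mem_Cf.mpr
    ⟨h.bk _ hi.1 _ hj.1, by rw [jac, hi.2, hj.2, zero_br, br_zero, add_zero]⟩
  have htW : br (π i) (π j) ∈ W (ψ i + ψ j) := h.pbr _ _ _ _ (h.wp i) (h.wp j)
  obtain ⟨y, hyC, hy0, e, he⟩ := h.mo' _ _ htC htW ht
  have hpW : ∏ l, π l ^ e l ∈ W (∑ l, e l • ψ l) :=
    prod_mem_gr h.toGr Finset.univ (fun l => e l • ψ l) (fun l => π l ^ e l)
      fun l _ => pow_mem_gr h.toGr (h.wp l) (e l)
  have hW2 : br (π i) (π j) ∈ W (∑ l, e l • ψ l) := by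
    rw [he]
    have := mul_mem_gr h.toGr hy0 hpW
    rwa [zero_add] at this
  have hw := wt_uniq h.toGr htW hW2 ht
  -- the relation
  obtain ⟨N, hN⟩ := h.rl (fun l => (e l : ℤ) - (if l = i then 1 else 0) - (if l = j then 1 else 0))
    (by
      simp only [sub_smul, Finset.sum_sub_distrib, ite_smul, one_smul, zero_smul,
        Finset.sum_ite_eq', Finset.mem_univ, if_true, natCast_zsmul]
      rw [← hw]
      abel)
  have hNi := hN i
  have hNj := hN j
  simp only [if_true, if_neg hij, if_neg (Ne.symm hij), sub_zero] at hNi hNj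
  rcases le_or_gt 0 N with h0 | h0
  · have hai : (0 : ℤ) ≤ N * (a i : ℤ) := mul_nonneg h0 (Int.natCast_nonneg _)
    have haj : (0 : ℤ) ≤ N * (a j : ℤ) := mul_nonneg h0 (Int.natCast_nonneg _)
    have hei : 1 ≤ e i := by omega
    have hej : 1 ≤ e j := by omega
    apply ht
    apply br_eq_zero_of_dvd
    rw [he]
    refine Dvd.dvd.mul_left ?_ y
    rw [← Finset.mul_prod_erase Finset.univ (fun l => π l ^ e l) (Finset.mem_univ i)]
    refine mul_dvd_mul (dvd_pow_self _ (by omega)) ?_
    refine dvd_trans (dvd_pow_self (π j) (by omega : e j ≠ 0)) ?_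
    exact Finset.dvd_prod_of_mem (fun l => π l ^ e l)
      (Finset.mem_erase.mpr ⟨Ne.symm hij, Finset.mem_univ j⟩)
  · have hall : ∀ l, l = i ∨ l = j := by
      intro l
      by_contra hc
      push Not at hc
      have h1 := hN l
      simp only [if_neg hc.1, if_neg hc.2, sub_zero] at h1
      have h2 : (0 : ℤ) < (a l : ℤ) := by exact_mod_cast h.ap l
      have h3 : N * (a l : ℤ) < 0 := mul_neg_of_neg_of_pos h0 h2
      have h4 : (0 : ℤ) ≤ (e l : ℤ) := Int.natCast_nonneg _
      omega
    have hf : f = C c0 * (π i ^ a i * π j ^ a j) := by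
      rw [h.fe]
      congr 1
      refine Finset.prod_eq_mul i j hij ?_ ?_ ?_
      · intro l _ hl
        rcases hall l with h1 | h1
        · exact absurd h1 hl.1
        · exact absurd h1 hl.2
      · intro h1
        exact absurd (Finset.mem_univ i) h1
      · intro h1
        exact absurd (Finset.mem_univ j) h1
    have h1 := hcen i
    rw [hf, br_mul, br_C, mul_zero, add_zero, br_mul, br_pow, br_pow, br_self, mul_zero, mul_zero,
      add_zero] at h1
    have hC : (C c0 : Pol k m) ≠ 0 := by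
      rw [Ne, C_eq_zero]
      exact h.c1
    have haj : ((a j : ℕ) : Pol k m) ≠ 0 := Nat.cast_ne_zero.mpr (h.ap j).ne'
    exact mul_ne_zero hC (mul_ne_zero (pow_ne_zero _ (h.pp i).ne_zero)
      (mul_ne_zero (mul_ne_zero haj (pow_ne_zero _ (h.pp j).ne_zero)) ht)) h1

end Pool.Agent.H63.TG
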